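import Pool.Agent.H902R3.XI.Stmts

open Complex MeasureTheory Filter Topology Set Metric
open scoped Real ENNReal Nat

namespace Pool.Agent.H468R3.XI

open Pool.Agent.H902R3.XI

/-- Taylor expansion with two Cauchy estimates. -/
lemma taylor_two {h : ℂ → ℂ} {κ₁ κ₂ κ A1 A2 : ℝ} (hk1 : 0 < κ₁) (hk11 : κ₁ < 1)
    (hk2 : 0 < κ₂) (hk21 : κ₂ < 1) (hκ0 : 0 ≤ κ) (hκ : κ < κ₁) (hA1 : 0 ≤ A1) (hA2 : 0 ≤ A2)
    (hh : DifferentiableOn ℂ h (ball 0 1))
    (h1 : ∀ z : ℂ, ‖z‖ = κ₁ → ‖h z‖ ≤ A1) (h2 : ∀ z : ℂ, ‖z‖ = κ₂ → ‖h z‖ ≤ A2) (K : ℕ) (z : ℂ)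
    (hz : ‖z‖ ≤ κ) :
    ‖h z‖ ≤ A2 * ∑ k ∈ Finset.range K, (κ / κ₂) ^ k + A1 * ((κ / κ₁) ^ K / (1 - κ / κ₁)) := by
  have hzb : z ∈ ball (0 : ℂ) 1 := by
    rw [mem_ball_zero_iff]; linarith
  have hs := Complex.hasSum_taylorSeries_on_ball hh hzb
  have est : ∀ (ρ A : ℝ), 0 < ρ → ρ < 1 → (∀ z : ℂ, ‖z‖ = ρ → ‖h z‖ ≤ A) → 0 ≤ A → ∀ n : ℕ,
      ‖(n ! : ℂ)⁻¹ • (z - 0) ^ n • iteratedDeriv n h 0‖ ≤ A * (κ / ρ) ^ n := by
    intro ρ A hρ hρ1 hA hA0 n
    have hd : DiffContOnCl ℂ h (ball 0 ρ) := by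
      apply DifferentiableOn.diffContOnCl
      rw [closure_ball _ hρ.ne']
      exact hh.mono (closedBall_subset_ball hρ1)
    have hc := Complex.norm_iteratedDeriv_le_of_forall_mem_sphere_norm_le n hρ hd
      (C := A) (fun z hz => hA z (by simpa using hz))
    rw [norm_smul, norm_smul, sub_zero, norm_inv, norm_pow]
    have hn : ‖(n ! : ℂ)‖ = (n ! : ℝ) := by simp
    rw [hn]
    have hf : (0 : ℝ) < (n ! : ℝ) := by positivity
    calc ((n ! : ℝ))⁻¹ * (‖z‖ ^ n * ‖iteratedDeriv n h 0‖)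
        ≤ ((n ! : ℝ))⁻¹ * (κ ^ n * ((n ! : ℝ) * A / ρ ^ n)) := by
          gcongr
      _ = A * (κ / ρ) ^ n := by
          rw [div_pow]; field_simp
  have e1 := est κ₁ A1 hk1 hk11 h1 hA1
  have e2 := est κ₂ A2 hk2 hk21 h2 hA2
  have hq0 : 0 ≤ κ / κ₁ := by positivity
  have hq1 : κ / κ₁ < 1 := (div_lt_one hk1).2 hκ
  have hgeo : Summable (fun n : ℕ => A1 * (κ / κ₁) ^ n) :=
    (summable_geometric_of_lt_one hq0 hq1).mul_left A1
  have hsn : Summable (fun n : ℕ => ‖(n ! : ℂ)⁻¹ • (z - 0) ^ n • iteratedDeriv n h 0‖) :=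
    Summable.of_nonneg_of_le (fun _ => norm_nonneg _) e1 hgeo
  have hle : ‖h z‖ ≤ ∑' n : ℕ, ‖(n ! : ℂ)⁻¹ • (z - 0) ^ n • iteratedDeriv n h 0‖ := by
    rw [← hs.tsum_eq]
    exact norm_tsum_le_tsum_norm hsn
  refine hle.trans ?_
  rw [← hsn.sum_add_tsum_nat_add K]
  refine add_le_add ?_ ?_
  · rw [Finset.mul_sum]
    exact Finset.sum_le_sum fun n _ => e2 n
  · have hgK : HasSum (fun n : ℕ => A1 * (κ / κ₁) ^ (n + K))
        (A1 * ((κ / κ₁) ^ K / (1 - κ / κ₁))) := by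
      have := ((hasSum_geometric_of_lt_one hq0 hq1).mul_left ((κ / κ₁) ^ K)).mul_left A1
      have e : (fun n : ℕ => A1 * (κ / κ₁) ^ (n + K)) =
          fun i => A1 * ((κ / κ₁) ^ K * (κ / κ₁) ^ i) := by
        funext n
        rw [pow_add]; ring
      rw [e, div_eq_mul_inv]
      exact this
    have hsn' : Summable (fun n : ℕ =>
        ‖((n + K) ! : ℂ)⁻¹ • (z - 0) ^ (n + K) • iteratedDeriv (n + K) h 0‖) :=
      (summable_nat_add_iff K).2 hsn
    rw [← hgK.tsum_eq]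
    exact hsn'.tsum_le_tsum (fun n => e1 (n + K)) hgK.summable

/-- normalised version, for the logarithm -/
lemma core (κ κ' β : ℝ) (hκ0 : 0 < κ) (hκ1 : κ < 1) (hκ'0 : 0 < κ') (hκ'1 : κ' < 1) (hβ : 0 < β) :
    ∃ δ : ℝ, 0 < δ ∧ δ ≤ 1 ∧ δ ≤ β / 4 ∧ ∀ B : ℝ, 0 < B → ∀ h : ℂ → ℂ, DifferentiableOn ℂ h (ball 0 1) →
      h 0 = 0 → (∀ z ∈ ball (0 : ℂ) 1, (h z).re ≤ 2 * B) →
      (∀ z ∈ ball (0 : ℂ) κ', (h z).re ≤ 2 * (δ * B)) →
      ∀ z : ℂ, ‖z‖ ≤ κ → ‖h z‖ ≤ β / 2 * B := by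
  set κ₁ : ℝ := (1 + κ) / 2 with hκ₁
  have h11 : κ₁ < 1 := by rw [hκ₁]; linarith
  have h10 : 0 < κ₁ := by rw [hκ₁]; linarith
  have h1κ : κ < κ₁ := by rw [hκ₁]; linarith
  set q : ℝ := κ / κ₁ with hq
  have hq0 : 0 ≤ q := by positivity
  have hq1 : q < 1 := (div_lt_one h10).2 h1κ
  set C1 : ℝ := 4 * κ₁ / (1 - κ₁) with hC1
  have hC10 : 0 < C1 := by
    rw [hC1]; apply div_pos <;> linarith
  -- choose K
  obtain ⟨K, hK⟩ : ∃ K : ℕ, C1 * (q ^ K / (1 - q)) < β / 4 := by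
    have ht : Tendsto (fun K : ℕ => C1 * (q ^ K / (1 - q))) atTop (𝓝 (C1 * (0 / (1 - q)))) :=
      ((tendsto_pow_atTop_nhds_zero_of_lt_one hq0 hq1).div_const _).const_mul _
    rw [zero_div, mul_zero] at ht
    exact (ht.eventually_lt_const (by positivity)).exists
  set S : ℝ := ∑ k ∈ Finset.range K, (κ / (κ' / 2)) ^ k with hS
  have hS0 : 0 ≤ S := Finset.sum_nonneg fun _ _ => by positivity
  refine ⟨min (min 1 (β / 4)) (β / (16 * (S + 1))), ?_, ?_, ?_, ?_⟩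
  · exact lt_min (lt_min one_pos (by positivity)) (by positivity)
  · exact (min_le_left _ _).trans (min_le_left _ _)
  · exact (min_le_left _ _).trans (min_le_right _ _)
  intro B hB h hh h0 hre hre' z hz
  set δ : ℝ := min (min 1 (β / 4)) (β / (16 * (S + 1))) with hδ
  have hδ0 : 0 < δ := lt_min (lt_min one_pos (by positivity)) (by positivity)
  have hδS : δ * (S + 1) ≤ β / 16 := by
    have : δ ≤ β / (16 * (S + 1)) := min_le_right _ _
    calc δ * (S + 1) ≤ β / (16 * (S + 1)) * (S + 1) := by gcongr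
      _ = β / 16 := by field_simp
  have b1 : ∀ z : ℂ, ‖z‖ = κ₁ → ‖h z‖ ≤ C1 * B := by
    intro z hz
    have := Complex.borelCaratheodory_zero (f := h) (M := 2 * B) (R := 1) (z := z) (by positivity)
      hh (fun x hx => hre x hx) one_pos (by rw [mem_ball_zero_iff]; linarith) h0
    rw [hz] at this
    refine this.trans (le_of_eq ?_)
    rw [hC1]; ring
  have b2 : ∀ z : ℂ, ‖z‖ = κ' / 2 → ‖h z‖ ≤ 4 * (δ * B) := by
    intro z hz
    have := Complex.borelCaratheodory_zero (f := h) (M := 2 * (δ * B)) (R := κ') (z := z)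
      (by positivity) (hh.mono (ball_subset_ball hκ'1.le)) (fun x hx => hre' x hx) hκ'0
      (by rw [mem_ball_zero_iff]; linarith) h0
    rw [hz] at this
    refine this.trans (le_of_eq ?_)
    field_simp
    ring
  have key := taylor_two (κ₁ := κ₁) (κ₂ := κ' / 2) (κ := κ) h10 h11 (by positivity)
    (by linarith) hκ0.le h1κ (by positivity) (by positivity) hh b1 b2 K z hz
  calc ‖h z‖ ≤ 4 * (δ * B) * S + C1 * B * (q ^ K / (1 - q)) := key
    _ = (4 * (δ * S) + C1 * (q ^ K / (1 - q))) * B := by ring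
    _ ≤ (β / 4 + β / 4) * B := by
        gcongr
        nlinarith
    _ = β / 2 * B := by ring

theorem taskZ2 : TaskZ2 := by
  intro κ κ' β hκ0 hκ1 hκ'0 hκ'1 hβ
  obtain ⟨δ, hδ0, hδ1, hδβ, hcore⟩ := core κ κ' β hκ0 hκ1 hκ'0 hκ'1 hβ
  refine ⟨δ, hδ0, ?_⟩
  intro B R c F hB hR hF hF0 hFB hFs s hs
  -- normalise
  set P : ℂ → ℂ := fun z => F (c + R * z) with hP
  have hmem : ∀ (ρ : ℝ) (z : ℂ), z ∈ ball (0 : ℂ) ρ → c + R * z ∈ ball c (ρ * R) := by
    intro ρ z hz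
    rw [mem_ball_zero_iff] at hz
    rw [mem_ball_iff_norm]
    have : c + R * z - c = R * z := by ring
    rw [this, norm_mul, Complex.norm_real, Real.norm_of_nonneg hR.le, mul_comm]
    gcongr
  have hmem1 : ∀ z : ℂ, z ∈ ball (0 : ℂ) 1 → c + R * z ∈ ball c R := by
    intro z hz
    simpa using hmem 1 z hz
  have hPd : DifferentiableOn ℂ P (ball 0 1) := by
    have h1 : DifferentiableOn ℂ F (ball c R) := hF.differentiableOn
    exact h1.comp (by fun_prop) (fun z hz => hmem1 z hz)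
  have hP0 : ∀ z ∈ ball (0 : ℂ) 1, P z ≠ 0 := fun z hz => hF0 _ (hmem1 z hz)
  have hPda : ∀ z ∈ ball (0 : ℂ) 1, HasDerivAt P (deriv P z) z := fun z hz =>
    (hPd.differentiableAt (isOpen_ball.mem_nhds hz)).hasDerivAt
  have hld : DifferentiableOn ℂ (fun z => deriv P z / P z) (ball 0 1) :=
    (hPd.deriv isOpen_ball).div hPd hP0
  obtain ⟨G, hG0, hG⟩ := (hld.isExactOn_ball).with_val_at (0 : ℂ) (0 : ℂ)
  have h0mem : (0 : ℂ) ∈ ball (0 : ℂ) 1 := by simp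
  have hrep : ∀ z ∈ ball (0 : ℂ) 1, P z = P 0 * cexp (G z) := by
    intro z hz
    have hder : ∀ w ∈ ball (0 : ℂ) 1, HasDerivAt (fun w => P w * cexp (-G w)) 0 w := by
      intro w hw
      have h1 := (hPda w hw).mul ((hG w hw).neg.cexp)
      have hne := hP0 w hw
      have e : deriv P w * cexp (-G w) + P w * (cexp (-G w) * -(deriv P w / P w)) = 0 := by
        have e1 : P w * (deriv P w / P w) = deriv P w := mul_div_cancel₀ _ hne
        linear_combination (-cexp (-G w)) * e1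
      rw [← e]
      exact h1
    have hconst := (convex_ball (0 : ℂ) 1).is_const_of_fderivWithin_eq_zero (𝕜 := ℂ)
      (f := fun w => P w * cexp (-G w))
      (fun w hw => (hder w hw).differentiableAt.differentiableWithinAt)
      (fun w hw => by
        rw [fderivWithin_eq_fderiv (isOpen_ball.uniqueDiffWithinAt hw)
          (hder w hw).differentiableAt]
        ext
        simpa using (hder w hw).deriv) hz h0mem
    simp only [hG0, neg_zero, Complex.exp_zero, mul_one] at hconst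
    rw [← hconst, mul_assoc, ← Complex.exp_add]
    simp
  have hG_d : DifferentiableOn ℂ G (ball 0 1) := fun z hz =>
    (hG z hz).differentiableAt.differentiableWithinAt
  have hP0pos : 0 < ‖P 0‖ := norm_pos_iff.2 (hP0 0 h0mem)
  have hnorm : ∀ z ∈ ball (0 : ℂ) 1, ‖P z‖ = ‖P 0‖ * Real.exp (G z).re := by
    intro z hz
    conv_lhs => rw [hrep z hz]
    rw [norm_mul, Complex.norm_exp]
  have hc0 : c + R * (0 : ℂ) ∈ closedBall c (κ' * R) := by
    simp; positivity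
  have hP0l : Real.exp (-(δ * B)) ≤ ‖P 0‖ := (hFs _ hc0).1
  have hP0u : ‖P 0‖ ≤ Real.exp (δ * B) := (hFs _ hc0).2
  have hre_of : ∀ (z : ℂ) (M : ℝ), z ∈ ball (0 : ℂ) 1 → ‖P z‖ ≤ Real.exp M → (G z).re ≤ M + δ * B := by
    intro z M hz hM
    rw [hnorm z hz] at hM
    have h1 : Real.exp (-(δ * B)) * Real.exp (G z).re ≤ Real.exp M :=
      (mul_le_mul_of_nonneg_right hP0l (Real.exp_pos _).le).trans hM
    rw [← Real.exp_add, Real.exp_le_exp] at h1
    linarith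
  have hre1 : ∀ z ∈ ball (0 : ℂ) 1, (G z).re ≤ 2 * B := by
    intro z hz
    have := hre_of z B hz (hFB _ (hmem1 z hz))
    nlinarith
  have hre2 : ∀ z ∈ ball (0 : ℂ) κ', (G z).re ≤ 2 * (δ * B) := by
    intro z hz
    have hz1 : z ∈ ball (0 : ℂ) 1 := ball_subset_ball hκ'1.le hz
    have := hre_of z (δ * B) hz1 (hFs _ (ball_subset_closedBall (hmem κ' z hz))).2
    linarith
  -- the point
  have hRne : (R : ℂ) ≠ 0 := by exact_mod_cast hR.ne'
  set z : ℂ := (s - c) / R with hzdef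
  have hzs : c + R * z = s := by rw [hzdef]; field_simp; ring
  have hzn : ‖z‖ ≤ κ := by
    rw [mem_closedBall_iff_norm] at hs
    rw [hzdef, norm_div, Complex.norm_real, Real.norm_of_nonneg hR.le, div_le_iff₀ hR]
    exact hs
  have hzb : z ∈ ball (0 : ℂ) 1 := by rw [mem_ball_zero_iff]; linarith
  have hfin := hcore B hB G hG_d hG0 hre1 hre2 z hzn
  have hval : ‖F s‖ = ‖P 0‖ * Real.exp (G z).re := by
    rw [← hnorm z hzb, hP]
    simp only [hzs]
  rw [hval]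
  calc ‖P 0‖ * Real.exp (G z).re ≤ Real.exp (δ * B) * Real.exp (β / 2 * B) := by
        gcongr
        exact (Complex.re_le_norm _).trans hfin
    _ = Real.exp (δ * B + β / 2 * B) := by rw [Real.exp_add]
    _ < Real.exp (β * B) := by
        rw [Real.exp_lt_exp]
        nlinarith

end Pool.Agent.H468R3.XI
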